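import Pool.Agent.W719.AX.Dbl
import Pool.Agent.W398.HT.STPE

/-!
# The iterated integral of a double
-/

set_option autoImplicit false

namespace Pool.Agent.W366.AX

open Finset Filter Topology Metric
open Pool.Agent.W711.HT hiding XX
open Pool.Agent.W719.AR Pool.Agent.W719.AX
open Pool.Agent.W398.HT
open scoped Real

theorem upp_expand (a : ℤ) (X : ℂ → ℂ) (hX : Differentiable ℂ X) (N : ℕ) (hN : 0 < N)
    (c : ℕ → ℂ) :
    upp (1 / N) (fun ψ => ∑ d ∈ Finset.range N, c d * (Ea a N ψ * X ψ * Rp N d ψ * kr N ψ)) =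
      ∑ d ∈ Finset.range N, c d * upp (1 / N) (fun ψ => Ea a N ψ * X ψ * Rp N d ψ * kr N ψ) := by
  have hNR : (0 : ℝ) < N := by exact_mod_cast hN
  have hcont : ∀ (g : ℝ → ℂ) (s : Set ℝ), Continuous g →
      (∀ t ∈ s, Complex.cos (N * (g t + π) / 2) ≠ 0) → ∀ d,
      ContinuousOn (fun t => Ea a N (g t) * X (g t) * Rp N d (g t) * kr N (g t)) s := by
    intro g s hg hs d
    have c1 : Continuous (fun t => Ea a N (g t)) := by
      unfold Ea
      fun_prop
    have c2 : Continuous (fun t => X (g t)) := hX.continuous.comp hg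
    have c3 : Continuous (fun t => Rp N d (g t)) := (Rp_diff N d).continuous.comp hg
    apply ((c1.mul c2).mul c3).continuousOn.mul
    unfold kr
    apply ContinuousOn.div
    · fun_prop
    · fun_prop
    · intro t ht
      exact mul_ne_zero (by norm_num) (pow_ne_zero _ (hs t ht))
  apply upp_sum
  · intro d _
    apply ContinuousOn.intervalIntegrable
    apply hcont (fun y : ℝ => -π + y * Complex.I) _ (by fun_prop) _ d
    intro y _
    apply cos_ne
    by_cases hy : y = 0
    · right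
      intro k
      rw [hy]
      have : ((N : ℂ) * ((-π + ((0 : ℝ) : ℂ) * Complex.I) + π) / 2) = 0 := by
        push_cast
        ring
      rw [this, Complex.zero_re]
      intro h0
      have h1 : (2 * (k : ℝ) + 1) = 0 := by
        have := Real.pi_pos
        nlinarith
      have h2 : 2 * k + 1 = 0 := by exact_mod_cast h1
      omega
    · left
      have : ((N : ℂ) * ((-π + (y : ℂ) * Complex.I) + π) / 2) = ((N * y / 2 : ℝ) : ℂ) * Complex.I := by
        push_cast
        ring
      rw [this]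
      simp
      exact ⟨hN.ne', hy⟩
  · intro d _
    apply ContinuousOn.intervalIntegrable
    apply hcont (fun x : ℝ => x + ((1 / N : ℝ) : ℂ) * Complex.I) _ (by fun_prop) _ d
    intro x _
    apply cos_ne
    left
    have : ((N : ℂ) * ((x + ((1 / N : ℝ) : ℂ) * Complex.I) + π) / 2) =
        ((N * (x + π) / 2 : ℝ) : ℂ) + ((1 / 2 : ℝ) : ℂ) * Complex.I := by
      have : (N : ℂ) ≠ 0 := by exact_mod_cast hN.ne'
      push_cast
      field_simp
      ring
    rw [this]
    simp
  · intro d _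
    apply ContinuousOn.intervalIntegrable
    apply hcont (fun y : ℝ => π + y * Complex.I) _ (by fun_prop) _ d
    intro y _
    apply cos_ne
    by_cases hy : y = 0
    · right
      intro k
      rw [hy]
      have : ((N : ℂ) * ((π + ((0 : ℝ) : ℂ) * Complex.I) + π) / 2) = ((N * π : ℝ) : ℂ) := by
        push_cast
        ring
      rw [this, Complex.ofReal_re]
      intro h0
      have h1 : (2 * (k : ℝ) + 1) = 2 * N := by
        have := Real.pi_pos
        have h3 : π * (2 * (k : ℝ) + 1 - 2 * N) = 0 := by linarith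
        rcases mul_eq_zero.1 h3 with h4 | h4
        · linarith
        · linarith
      have h2 : 2 * k + 1 = 2 * (N : ℤ) := by exact_mod_cast h1
      omega
    · left
      have : ((N : ℂ) * ((π + (y : ℂ) * Complex.I) + π) / 2) =
          ((N * π : ℝ) : ℂ) + ((N * y / 2 : ℝ) : ℂ) * Complex.I := by
        push_cast
        ring
      rw [this]
      simp
      exact ⟨hN.ne', hy⟩

/-- the functions are entire and even -/
theorem XX_diff (t : Tr) : (∀ N, Differentiable ℂ (XX t N)) ∧ ∀ N ψ, XX t N (-ψ) = XX t N ψ := by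
  induction t with
  | vx a => exact ⟨fun N => differentiable_const _, fun N ψ => rfl⟩
  | br t c iht ihc =>
    obtain ⟨h1, h2⟩ := t_STPE c.wt (XX c) ihc.1
    refine ⟨fun N => (iht.1 N).mul (h1 N), fun N ψ => ?_⟩
    change XX t N (-ψ) * stp c.wt (XX c) N (-ψ) = XX t N ψ * stp c.wt (XX c) N ψ
    rw [iht.2, h2]

theorem wt_ng (t : Tr) : (ng t).wt = -t.wt := by
  induction t with
  | vx a => rfl
  | br t c iht _ => exact iht

/-- complex conjugation of the path integral -/
theorem conj_upp (h : ℝ) (f : ℂ → ℂ) :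
    (starRingEnd ℂ) (upp h f) = upp h (fun ψ => (starRingEnd ℂ) (f (-(starRingEnd ℂ) ψ))) := by
  unfold upp
  rw [map_sub, map_add, map_mul, map_mul, Complex.conj_I, ← intervalIntegral.intervalIntegral_conj,
    ← intervalIntegral.intervalIntegral_conj, ← intervalIntegral.intervalIntegral_conj]
  have e1 : ∀ y : ℝ, -(starRingEnd ℂ) (-(π : ℂ) + y * Complex.I) = π + y * Complex.I := by
    intro y
    rw [map_add, map_neg, map_mul, Complex.conj_ofReal, Complex.conj_ofReal, Complex.conj_I]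
    ring
  have e2 : ∀ y : ℝ, -(starRingEnd ℂ) ((π : ℂ) + y * Complex.I) = -π + y * Complex.I := by
    intro y
    rw [map_add, map_mul, Complex.conj_ofReal, Complex.conj_ofReal, Complex.conj_I]
    ring
  have e3 : ∀ x : ℝ, -(starRingEnd ℂ) ((x : ℂ) + h * Complex.I) =
      ((-x : ℝ) : ℂ) + h * Complex.I := by
    intro x
    rw [map_add, map_mul, Complex.conj_ofReal, Complex.conj_ofReal, Complex.conj_I]
    push_cast
    ring
  simp only [e1, e2, e3]
  have e4 : ∫ x in (-π)..π, (starRingEnd ℂ) (f (((-x : ℝ) : ℂ) + h * Complex.I)) =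
      ∫ x in (-π)..π, (starRingEnd ℂ) (f ((x : ℂ) + h * Complex.I)) := by
    have := intervalIntegral.integral_comp_neg (a := -π) (b := π)
      (fun x : ℝ => (starRingEnd ℂ) (f ((x : ℂ) + h * Complex.I)))
    rw [this, neg_neg]
  rw [e4]
  ring

theorem conj_Ea (a : ℤ) (N : ℕ) (ψ : ℂ) :
    (starRingEnd ℂ) (Ea a N (-(starRingEnd ℂ) ψ)) = Ea (-a) N ψ := by
  unfold Ea
  rw [← Complex.exp_conj]
  congr 1
  simp only [map_div₀, map_mul, map_pow, map_neg, Complex.conj_conj, Complex.conj_I,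
    Complex.conj_ofReal, map_intCast, map_natCast, map_ofNat]
  push_cast
  ring

theorem conj_Rp (N d : ℕ) (ψ : ℂ) :
    (starRingEnd ℂ) (Rp N d (-(starRingEnd ℂ) ψ)) = Rp N d ψ := by
  unfold Rp
  rw [map_prod]
  refine Finset.prod_congr rfl fun j _ => ?_
  rw [map_add, map_mul, map_mul, Complex.conj_ofReal, ← Complex.cos_conj, map_neg,
    Complex.conj_conj, Complex.cos_neg, map_ofNat]

theorem kr_odd (N : ℕ) (ψ : ℂ) : kr N (-ψ) = -kr N ψ := by
  unfold kr
  have h : Complex.cos ((N : ℂ) * (-ψ + π) / 2) ^ 2 = Complex.cos ((N : ℂ) * (ψ + π) / 2) ^ 2 := by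
    have h1 : (N : ℂ) * (-ψ + π) / 2 = N * π - (N : ℂ) * (ψ + π) / 2 := by ring
    have h2 := Complex.sin_nat_mul_pi N
    have h3 := Complex.sin_sq_add_cos_sq ((N : ℂ) * π)
    rw [h2] at h3
    rw [h1, Complex.cos_sub, h2]
    linear_combination (Complex.cos ((N : ℂ) * (ψ + π) / 2) ^ 2) * h3
  rw [h, Complex.sin_neg]
  ring

theorem conj_kr (N : ℕ) (ψ : ℂ) :
    (starRingEnd ℂ) (kr N (-(starRingEnd ℂ) ψ)) = -kr N ψ := by
  rw [kr_odd, map_neg]
  congr 1
  unfold kr
  simp only [map_div₀, map_mul, map_pow, ← Complex.sin_conj, ← Complex.cos_conj, map_add,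
    Complex.conj_conj, Complex.conj_ofReal, map_natCast, map_ofNat]

theorem djt : S_NG → S_DJT := by
  intro hNG t N hN
  have hN0 : 0 < N := by omega
  set A : ℕ → ℂ := fun d => upp (1 / N) fun ψ => Ea t.wt N ψ * XX t N ψ * Rp N d ψ * kr N ψ
    with hA
  set B : ℕ → ℂ := fun d => upp (1 / N) fun ψ =>
    Ea (ng t).wt N ψ * XX (ng t) N ψ * Rp N d ψ * kr N ψ with hB
  -- the conjugate
  have hconj : ∀ d, B d = (-1) ^ (ne t + 1) * (starRingEnd ℂ) (A d) := by
    intro d
    have h1 : (starRingEnd ℂ) (A d) = upp (1 / N) (fun ψ =>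
        (-((-1) ^ ne t)) * (Ea (ng t).wt N ψ * XX (ng t) N ψ * Rp N d ψ * kr N ψ)) := by
      rw [hA]
      simp only
      rw [conj_upp]
      congr 1
      funext ψ
      rw [map_mul, map_mul, map_mul, conj_Ea, conj_Rp, conj_kr, wt_ng, (XX_diff t).2,
        hNG t N ψ hN]
      have h2 : ((-1 : ℂ) ^ ne t) * (-1) ^ ne t = 1 := by
        rw [← mul_pow]; norm_num
      linear_combination (-(Ea (-t.wt) N ψ * (starRingEnd ℂ) (XX t N ((starRingEnd ℂ) ψ)) *
        Rp N d ψ * kr N ψ)) * (1 - h2)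
    have h3 : upp (1 / N) (fun ψ =>
        (-((-1) ^ ne t)) * (Ea (ng t).wt N ψ * XX (ng t) N ψ * Rp N d ψ * kr N ψ)) =
        (-((-1) ^ ne t)) * B d := by
      rw [hB]
      unfold upp
      simp only [intervalIntegral.integral_const_mul]
      ring
    rw [h1, h3, pow_succ]
    have h2 : ((-1 : ℂ) ^ ne t) * (-1) ^ ne t = 1 := by
      rw [← mul_pow]; norm_num
    linear_combination (-(B d)) * h2
  have hstp : ∀ ψ, stp (ng t).wt (XX (ng t)) N ψ =
      ∑ d ∈ Finset.range N, (Rp N d ψ / (Sd N d : ℂ) ^ 4) * B d := by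
    intro ψ
    exact stp_eq (ng t).wt (XX (ng t)) (XX_diff (ng t)).1 N ψ
  have hJ : JT (.br t (ng t)) N = upp (1 / N) (fun ψ => ∑ d ∈ Finset.range N,
      (B d / (Sd N d : ℂ) ^ 4) * (Ea t.wt N ψ * XX t N ψ * Rp N d ψ * kr N ψ)) := by
    unfold JT
    congr 1
    funext ψ
    change Ea t.wt N ψ * (XX t N ψ * stp (ng t).wt (XX (ng t)) N ψ) * kr N ψ = _
    rw [hstp, Finset.mul_sum, Finset.mul_sum, Finset.sum_mul]
    refine Finset.sum_congr rfl fun d _ => ?_
    ring
  rw [hJ, upp_expand t.wt (XX t N) ((XX_diff t).1 N) N hN0]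
  push_cast
  rw [Finset.mul_sum]
  refine Finset.sum_congr rfl fun d _ => ?_
  change B d / (Sd N d : ℂ) ^ 4 * A d = (-1) ^ (ne t + 1) * ((‖A d‖ : ℂ) ^ 2 / (Sd N d : ℂ) ^ 4)
  rw [hconj d]
  have h4 : (starRingEnd ℂ) (A d) * A d = (‖A d‖ : ℂ) ^ 2 := by
    rw [mul_comm, Complex.mul_conj, Complex.normSq_eq_norm_sq]
    push_cast
    rfl
  rw [← h4]
  ring

end Pool.Agent.W366.AX
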